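import Pool.Agent.Q175.LU.Uniq

/-!
The solution at the lower threshold of the negative solutions can be strongly negative.

In the unit disc, with `μ = 1`, let `u = -(1 - |x|²) / 2`, `c = (12 + 8 |x|²) / (2 - |x|²)` and
`h = -Δu - c u - |∇u|²`. Then `u` solves `(P₁)`. The function `ψ = (1 - |x|²) (1 - |x|² / 2) > 0` solves
`-Δψ - 2 ∇u ∇ψ = c ψ`, so `u` is degenerate. Testing the equations of `u` and of a solution `u'` of `(P_λ)`
with `ψ e^{2u}` gives `∫ |∇(u' - u)|² ψ e^{2u} = (1 - λ) ∫ c u' ψ e^{2u}`. So there is no solution `≤ 0` for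
`λ < 1`, and `u` is the only solution for `λ = 1`.
The definition `IsSolution` is in `Pool.Agent.Q175.SG.Main`, the class `H^1_0` (`IsH10`) is in
`Pool.Agent.Q175.WS.Basic`.
-/

namespace Pool.Agent.Results.MP_0cf84d_an.StronglyNegative

open MeasureTheory Set
open Pool.Agent.Q175.SG

/-- The disc. -/
abbrev D : Set E2 := Metric.ball 0 1

/-- `(P_λ)` has a solution `u ≤ 0`. -/
def HasNonpositive (lam : ℝ) (c h : E2 → ℝ) : Prop :=
  ∃ (u : E2 → ℝ) (G : E2 → E2), IsSolution D lam c (fun _ => 1) h u G ∧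
    ∀ᵐ x ∂(volume.restrict D), u x ≤ 0

/-- There are continuous `c > 0` and `h` such that, in the unit disc and with `μ = 1`: `(P₀)` has no
solution `≤ 0`; the infimum of the `λ ≥ 0` for which `(P_λ)` has a solution `≤ 0` is `1`; the problem
`(P₁)` has the solution `u = -(1 - |x|²) / 2` and no other one; and for each function `φ` which is
Lipschitz on the closed disc and zero on its boundary there is `ε > 0` with `-u ≥ ε φ`. -/
theorem result : ∃ (c h u : E2 → ℝ) (G : E2 → E2),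
    Continuous c ∧ Continuous h ∧ (∀ x, 0 < c x) ∧
      ¬ HasNonpositive 0 c h ∧
      sInf {lam : ℝ | 0 ≤ lam ∧ HasNonpositive lam c h} = 1 ∧
      IsSolution D 1 c (fun _ => 1) h u G ∧
      (∀ x ∈ D, u x = -((1 - ‖x‖ ^ 2) / 2)) ∧
      (∀ (v : E2 → ℝ) (V : E2 → E2), IsSolution D 1 c (fun _ => 1) h v V → v =ᵐ[volume.restrict D] u) ∧
      ∀ φ : E2 → ℝ, (∃ K, LipschitzOnWith K φ (Metric.closedBall 0 1)) →
        (∀ x ∈ Metric.sphere (0 : E2) 1, φ x = 0) →
        ∃ ε : ℝ, 0 < ε ∧ ∀ x ∈ Metric.closedBall (0 : E2) 1, ε * φ x ≤ -u x := by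
  refine ⟨Pool.Agent.Q175.LU.cf, Pool.Agent.Q175.LU.hf, Pool.Agent.Q175.LU.u1, Pool.Agent.Q175.LU.G1,
    Pool.Agent.Q175.LU.cf_cont, Pool.Agent.Q175.LU.hf_cont, Pool.Agent.Q175.LU.cf_pos, ?_,
    Pool.Agent.Q175.LU.threshold, Pool.Agent.Q175.LU.sol1, ?_, ?_, Pool.Agent.Q175.LU.strong⟩
  · rintro ⟨u, G, h, hu⟩
    exact Pool.Agent.Q175.LU.no_sol (by norm_num) h hu
  · intro x hx
    unfold Pool.Agent.Q175.LU.u1
    rw [indicator_of_mem (show x ∈ Dsk from hx)]
    unfold Pool.Agent.Q175.LU.uf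
    ring
  · intro v V h
    exact ae_restrict_of_ae (Pool.Agent.Q175.LU.uniq h)

end Pool.Agent.Results.MP_0cf84d_an.StronglyNegative
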